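import Pool.Agent.Y998.LP.Defs
import Pool.Agent.Y259.CN.CG

/-!
# LP-ID: the return probability of random transpositions
-/

set_option autoImplicit false

namespace Pool.Agent.Y220.LP

open Finset Equiv Pool.Agent.Y998.ST Pool.Agent.Y998.CN Pool.Agent.Y998.LP
open Pool.Agent.Y259.CN (trace_E eig_card H1 ham_apply ham_psd card_nsp nsp final_sum nsp_swap)

section

variable {V : Type} [Fintype V] [DecidableEq V]

/-- the Hamiltonian on functions of permutations -/
noncomputable def HP (V : Type) [Fintype V] [DecidableEq V] : Matrix (Perm V) (Perm V) ℝ :=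
  fun g h => ∑ x : V, ∑ y : V,
    1 / 2 * ((if h = g then 1 else 0) - (if h = g * swap x y then 1 else 0))

theorem HP_apply (f : Perm V → ℝ) (g : Perm V) :
    ∑ h, HP V g h * f h = ∑ x, ∑ y, 1 / 2 * (f g - f (g * swap x y)) := by
  simp only [HP, Finset.sum_mul]
  rw [Finset.sum_comm]
  refine Finset.sum_congr rfl fun x _ => ?_
  rw [Finset.sum_comm]
  refine Finset.sum_congr rfl fun y _ => ?_
  have h1 : ∀ h : Perm V, (1 : ℝ) / 2 * ((if h = g then 1 else 0) -
      (if h = g * swap x y then 1 else 0)) * f h =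
      (if h = g then 1 / 2 * f h else 0) - (if h = g * swap x y then 1 / 2 * f h else 0) := by
    intro h
    split_ifs <;> ring
  rw [Finset.sum_congr rfl fun h _ => h1 h, Finset.sum_sub_distrib, Finset.sum_ite_eq',
    Finset.sum_ite_eq', if_pos (Finset.mem_univ _), if_pos (Finset.mem_univ _)]
  ring

omit [Fintype V] in
theorem swap_iff (g h : Perm V) (x y : V) : h = g * swap x y ↔ g = h * swap x y := by
  constructor
  · rintro rfl
    rw [mul_assoc, swap_mul_self, mul_one]
  · rintro rfl
    rw [mul_assoc, swap_mul_self, mul_one]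

theorem HP_herm : (HP V).IsHermitian := by
  ext g h
  rw [Matrix.conjTranspose_apply, star_trivial]
  simp only [HP]
  refine Finset.sum_congr rfl fun x _ => Finset.sum_congr rfl fun y _ => ?_
  have h2 : (g = h) ↔ (h = g) := eq_comm
  simp only [swap_iff h g x y, h2]

/-- the transition matrix of the stirring process -/
noncomputable def YP (V : Type) [Fintype V] [DecidableEq V] (t : ℝ) :
    Matrix (Perm V) (Perm V) ℝ :=
  fun g h => stirLaw (fun _ _ : V => (1 : ℝ)) t (h⁻¹ * g)

theorem YP_deriv (t : ℝ) (g h : Perm V) :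
    HasDerivAt (fun u => YP V u g h) ((YP V t * (-(HP V))) g h) t := by
  refine HasDerivAt.congr_deriv (f := fun u => YP V u g h)
    (law_deriv (fun _ _ : V => (1 : ℝ)) t (h⁻¹ * g)) ?_
  rw [Matrix.mul_apply]
  simp only [Matrix.neg_apply, HP, mul_neg, Finset.mul_sum, YP]
  rw [Finset.sum_neg_distrib]
  symm
  rw [Finset.sum_comm, ← Finset.sum_neg_distrib]
  refine Finset.sum_congr rfl fun x _ => ?_
  rw [Finset.sum_comm, ← Finset.sum_neg_distrib]
  refine Finset.sum_congr rfl fun y _ => ?_
  have h3 : ∀ k : Perm V, stirLaw (fun _ _ : V => (1 : ℝ)) t (k⁻¹ * g) *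
      (1 / 2 * ((if h = k then 1 else 0) - (if h = k * swap x y then 1 else 0))) =
      (if k = h then 1 / 2 * stirLaw (fun _ _ : V => (1 : ℝ)) t (k⁻¹ * g) else 0) -
      (if k = h * swap x y then 1 / 2 * stirLaw (fun _ _ : V => (1 : ℝ)) t (k⁻¹ * g)
        else 0) := by
    intro k
    simp only [swap_iff h k x y, eq_comm (a := h) (b := k)]
    split_ifs <;> ring
  rw [Finset.sum_congr rfl fun k _ => h3 k, Finset.sum_sub_distrib, Finset.sum_ite_eq',
    Finset.sum_ite_eq', if_pos (Finset.mem_univ _), if_pos (Finset.mem_univ _), mul_inv_rev,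
    swap_inv, mul_assoc]
  ring

theorem YP_zero : YP V 0 = 1 := by
  ext g h
  unfold YP
  rw [law_zero, Matrix.one_apply]
  have h1 : (h⁻¹ * g = 1) ↔ (g = h) := by
    rw [inv_mul_eq_one, eq_comm]
  simp only [h1]

/-- the trace of the exponential is a return probability -/
theorem trace_law (t : ℝ) : ((Fintype.card V).factorial : ℝ) *
    stirLaw (fun _ _ : V => (1 : ℝ)) t 1 = (E (-(HP V)) t).trace := by
  rw [← eq_E YP_deriv YP_zero t, Matrix.trace]
  simp only [Matrix.diag_apply, YP, inv_mul_cancel]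
  rw [Finset.sum_const, Finset.card_univ, Fintype.card_perm, nsmul_eq_mul]

/-! ### functions of permutations as functions of colourings -/

variable {n : ℕ}

/-- the function of colourings, supported on the bijective colourings -/
noncomputable def ex (e : V ≃ Fin n) (f : Perm V → ℝ) (c : V → Fin n) : ℝ :=
  ∑ g : Perm V, if c = e ∘ g then f g else 0

omit [Fintype V] [DecidableEq V] in
theorem comp_inj (e : V ≃ Fin n) (g h : Perm V) : ((e : V → Fin n) ∘ g = e ∘ h) ↔ g = h := by
  constructor
  · intro h1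
    ext x
    exact e.injective (congrFun h1 x)
  · rintro rfl
    rfl

theorem ex_apply (e : V ≃ Fin n) (f : Perm V → ℝ) (g : Perm V) : ex e f (e ∘ g) = f g := by
  unfold ex
  simp only [comp_inj]
  rw [Finset.sum_ite_eq, if_pos (Finset.mem_univ _)]

theorem ex_sum (e : V ≃ Fin n) (f : Perm V → ℝ) (φ : (V → Fin n) → ℝ) :
    ∑ c, φ c * ex e f c = ∑ g : Perm V, φ (e ∘ g) * f g := by
  unfold ex
  simp only [Finset.mul_sum]
  rw [Finset.sum_comm]
  refine Finset.sum_congr rfl fun g _ => ?_
  simp only [mul_ite, mul_zero]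
  rw [Finset.sum_ite_eq', if_pos (Finset.mem_univ _)]

theorem ex_swap (e : V ≃ Fin n) (f : Perm V → ℝ) (c : V → Fin n) (x y : V) :
    ex e f (c ∘ swap x y) = ∑ g : Perm V, if c = e ∘ g then f (g * swap x y) else 0 := by
  unfold ex
  rw [← Equiv.sum_comp (Equiv.mulRight (swap x y))]
  refine Finset.sum_congr rfl fun g _ => ?_
  rw [Equiv.coe_mulRight]
  have h1 : (c ∘ swap x y = (e : V → Fin n) ∘ ((g * swap x y : Perm V) : V → V)) ↔
      (c = e ∘ g) := by
    constructor
    · intro h
      funext z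
      have h2 := congrFun h (swap x y z)
      simpa using h2
    · intro h
      rw [h]
      funext z
      simp
  simp only [h1]

theorem ex_ham (e : V ≃ Fin n) (f : Perm V → ℝ) (lam : ℝ)
    (hf : ∀ g, ∑ h, HP V g h * f h = lam * f g) (c : V → Fin n) :
    ∑ c', H1 V n c c' * ex e f c' = lam * ex e f c := by
  rw [ham_apply]
  simp only [ex_swap]
  have h1 : ∀ x y : V, 1 / 2 * (ex e f c - ∑ g : Perm V, if c = e ∘ g then f (g * swap x y) else 0) =
      ∑ g : Perm V, if c = e ∘ g then 1 / 2 * (f g - f (g * swap x y)) else 0 := by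
    intro x y
    unfold ex
    rw [← Finset.sum_sub_distrib, Finset.mul_sum]
    refine Finset.sum_congr rfl fun g _ => ?_
    split_ifs <;> ring
  simp only [h1]
  have h2 : ∑ x : V, ∑ y : V, ∑ g : Perm V,
      (if c = e ∘ g then 1 / 2 * (f g - f (g * swap x y)) else 0) =
      ∑ g : Perm V, ∑ x : V, ∑ y : V,
        (if c = e ∘ g then 1 / 2 * (f g - f (g * swap x y)) else 0) := by
    rw [Finset.sum_comm]
    rw [Finset.sum_congr rfl fun y _ => Finset.sum_comm]
    rw [Finset.sum_comm]
    refine Finset.sum_congr rfl fun g _ => ?_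
    rw [Finset.sum_comm]
  rw [h2]
  unfold ex
  rw [Finset.mul_sum]
  refine Finset.sum_congr rfl fun g _ => ?_
  by_cases hc : c = e ∘ g
  · simp only [if_pos hc]
    rw [← HP_apply, hf]
  · simp only [if_neg hc, Finset.sum_const_zero, mul_zero]

/-! ### patterns -/

/-- the indicator of a pattern -/
noncomputable def patP (e : V ≃ Fin n) (ν : V → Option (Fin n)) : EuclideanSpace ℝ (Perm V) :=
  WithLp.toLp 2 (fun g => if (∀ x a, ν x = some a → e (g x) = a) then (1 : ℝ) else 0)

/-- the span of the patterns -/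
noncomputable def WP (e : V ≃ Fin n) (j : ℕ) : Submodule ℝ (EuclideanSpace ℝ (Perm V)) :=
  Submodule.span ℝ (patP e '' {ν | nsp ν ≤ j})

theorem toE_applyP (f : EuclideanSpace ℝ (Perm V)) (g : Perm V) :
    (Matrix.toEuclideanLin (HP V) f) g = ∑ x, ∑ y, 1 / 2 * (f g - f (g * swap x y)) := by
  rw [Matrix.toLpLin_apply]
  exact HP_apply f g

theorem toE_patP (e : V ≃ Fin n) (ν : V → Option (Fin n)) :
    Matrix.toEuclideanLin (HP V) (patP e ν) =
      ∑ x, ∑ y, (1 / 2 : ℝ) • (patP e ν - patP e (ν ∘ swap x y)) := by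
  ext g
  rw [toE_applyP]
  simp only [WithLp.ofLp_sum, Finset.sum_apply]
  refine Finset.sum_congr rfl fun x _ => Finset.sum_congr rfl fun y _ => ?_
  change _ = 1 / 2 * (patP e ν g - patP e (ν ∘ swap x y) g)
  congr 2
  change (if (∀ z a, ν z = some a → e ((g * swap x y) z) = a) then (1 : ℝ) else 0) =
    if (∀ z a, (ν ∘ swap x y) z = some a → e (g z) = a) then 1 else 0
  have h1 : (∀ z a, ν z = some a → e ((g * swap x y) z) = a) ↔
      (∀ z a, (ν ∘ swap x y) z = some a → e (g z) = a) := by
    constructor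
    · intro h z a hz
      have := h (swap x y z) a hz
      simpa using this
    · intro h z a hz
      have := h (swap x y z) a (by simpa using hz)
      exact this
  simp only [h1]

theorem WP_inv (e : V ≃ Fin n) (j : ℕ) :
    ∀ f ∈ WP e j, Matrix.toEuclideanLin (HP V) f ∈ WP e j := by
  intro f hf
  unfold WP at hf
  induction hf using Submodule.span_induction with
  | mem f hf =>
    obtain ⟨p, hp, rfl⟩ := hf
    rw [toE_patP]
    refine Submodule.sum_mem _ fun x _ => Submodule.sum_mem _ fun y _ => Submodule.smul_mem _ _ ?_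
    refine Submodule.sub_mem _ (Submodule.subset_span ⟨p, hp, rfl⟩) (Submodule.subset_span ?_)
    refine ⟨p ∘ swap x y, ?_, rfl⟩
    change nsp (p ∘ swap x y) ≤ j
    rw [nsp_swap]
    exact hp
  | zero => rw [map_zero]; exact Submodule.zero_mem _
  | add f g _ _ hf hg => rw [map_add]; exact Submodule.add_mem _ hf hg
  | smul a f _ hf => rw [map_smul]; exact Submodule.smul_mem _ _ hf

theorem finrank_WP (e : V ≃ Fin n) (j : ℕ) :
    Module.finrank ℝ (WP e j) ≤ (Fintype.card V * n + 1) ^ j := by
  obtain ⟨F, hF⟩ : ∃ F : Finset (V → Option (Fin n)),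
      F = univ.filter fun ν : V → Option (Fin n) => nsp ν ≤ j := ⟨_, rfl⟩
  have h1 : WP e j ≤ Submodule.span ℝ ((F.image (patP e) : Finset _) : Set _) := by
    unfold WP
    apply Submodule.span_mono
    rintro f ⟨p, hp, rfl⟩
    rw [Finset.coe_image]
    refine ⟨p, ?_, rfl⟩
    rw [hF, Finset.mem_coe, Finset.mem_filter]
    exact ⟨Finset.mem_univ _, hp⟩
  refine (Submodule.finrank_mono h1).trans ?_
  refine (finrank_span_finset_le_card (F.image (patP e))).trans (Finset.card_image_le.trans ?_)
  rw [hF]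
  exact card_nsp j

theorem ex_ne (e : V ≃ Fin n) {f : EuclideanSpace ℝ (Perm V)} (hf : f ≠ 0) :
    ex e (fun g => f g) ≠ 0 := by
  intro h0
  apply hf
  ext g
  have h1 := congrFun h0 (e ∘ g)
  rw [ex_apply] at h1
  exact h1

theorem toE_eig {f : EuclideanSpace ℝ (Perm V)} {lam : ℝ}
    (h : Matrix.toEuclideanLin (HP V) f = lam • f) (g : Perm V) :
    ∑ h, HP V g h * f h = lam * f g := by
  have h1 : (Matrix.toEuclideanLin (HP V) f) g = (lam • f) g := by rw [h]
  rw [Matrix.toLpLin_apply] at h1
  exact h1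

theorem WP_perp (hEN : S_EN2) (e : V ≃ Fin n) (j : ℕ) (lam : ℝ)
    (f : EuclideanSpace ℝ (Perm V)) (hf : f ≠ 0)
    (h : Matrix.toEuclideanLin (HP V) f = lam • f) (hp : f ∈ (WP e j)ᗮ) :
    ((j : ℝ) + 1) * Fintype.card V / 2 ≤ lam := by
  refine hEN V n j lam (ex e (fun g => f g)) (ex_ne e hf) (ex_ham e _ lam (toE_eig h)) ?_
  intro ν μ hν
  have h1 : ∀ c : V → Fin n, (if (∀ x a, ν x = some a → c x = a) ∧
      (∀ a, (univ.filter fun x => c x = a).card = μ a) then ex e (fun g => f g) c else 0) =
      (if (∀ x a, ν x = some a → c x = a) ∧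
        (∀ a, (univ.filter fun x => c x = a).card = μ a) then (1 : ℝ) else 0) *
        ex e (fun g => f g) c := by
    intro c
    split_ifs <;> ring
  rw [Finset.sum_congr rfl fun c _ => h1 c, ex_sum e (fun g => f g)
    (fun c => if (∀ x a, ν x = some a → c x = a) ∧
        (∀ a, (univ.filter fun x => c x = a).card = μ a) then (1 : ℝ) else 0)]
  have hcount : ∀ (g : Perm V) (a : Fin n),
      (univ.filter fun x => ((e : V → Fin n) ∘ g) x = a).card = 1 := by
    intro g a
    rw [Finset.card_eq_one]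
    refine ⟨g⁻¹ (e.symm a), ?_⟩
    ext x
    simp only [Finset.mem_filter, Finset.mem_univ, true_and, Finset.mem_singleton,
      Function.comp_apply]
    constructor
    · intro hx
      rw [← hx, e.symm_apply_apply]
      simp
    · intro hx
      rw [hx]
      simp
  simp only [hcount]
  by_cases hμ : ∀ a, 1 = μ a
  · have h3 : patP e ν ∈ WP e j := Submodule.subset_span ⟨ν, hν, rfl⟩
    have h2 := (Submodule.mem_orthogonal _ f).1 hp _ h3
    rw [PiLp.inner_apply] at h2
    refine Eq.trans ?_ h2
    refine Finset.sum_congr rfl fun g _ => ?_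
    change (if (∀ x a, ν x = some a → (e ∘ g) x = a) ∧ (∀ a, 1 = μ a) then (1 : ℝ) else 0) * f g =
      inner ℝ (if (∀ x a, ν x = some a → e (g x) = a) then (1 : ℝ) else 0) (f g)
    by_cases hc : ∀ x a, ν x = some a → e (g x) = a
    · rw [if_pos ⟨hc, hμ⟩, if_pos hc]
      simp
    · rw [if_neg fun h => hc h.1, if_neg hc]
      simp
  · refine Finset.sum_eq_zero fun g _ => ?_
    rw [if_neg fun h => hμ h.2, zero_mul]

theorem countP (hEN : S_EN2) (e : V ≃ Fin n) (j : ℕ) :
    (univ.filter fun i => (HP_herm (V := V)).eigenvalues i <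
      ((j : ℝ) + 1) * Fintype.card V / 2).card ≤ (Fintype.card V * n + 1) ^ j :=
  (eig_card (HP V) HP_herm (WP e j) (WP_inv e j) _ (fun lam f hf h hp =>
    WP_perp hEN e j lam f hf h hp)).trans (finrank_WP e j)

theorem eig_nonnegP (e : V ≃ Fin n) (i : Perm V) : 0 ≤ (HP_herm (V := V)).eigenvalues i := by
  have h1 := (HP_herm (V := V)).mulVec_eigenvectorBasis i
  obtain ⟨u, hu⟩ : ∃ u, u = (HP_herm (V := V)).eigenvectorBasis i := ⟨_, rfl⟩
  have h3 : ∀ g, ∑ h, HP V g h * u h = (HP_herm (V := V)).eigenvalues i * u g := by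
    intro g
    have := congrFun h1 g
    rw [hu]
    exact this
  have h2 := ham_psd (ex e (fun g => u g))
  have h4 : ∀ c, ∑ c', H1 V n c c' * ex e (fun g => u g) c' =
      (HP_herm (V := V)).eigenvalues i * ex e (fun g => u g) c :=
    ex_ham e _ _ h3
  simp only [h4] at h2
  have h5 : ∑ c, ex e (fun g => u g) c *
      ((HP_herm (V := V)).eigenvalues i * ex e (fun g => u g) c) =
      (HP_herm (V := V)).eigenvalues i * ‖u‖ ^ 2 := by
    have h6 : ∀ c : V → Fin n, ex e (fun g => u g) c *
        ((HP_herm (V := V)).eigenvalues i * ex e (fun g => u g) c) =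
        ((HP_herm (V := V)).eigenvalues i * ex e (fun g => u g) c) *
          ex e (fun g => u g) c := fun c => mul_comm _ _
    rw [Finset.sum_congr rfl fun c _ => h6 c, ex_sum e (fun g => u g)
      (fun c => (HP_herm (V := V)).eigenvalues i * ex e (fun g => u g) c),
      EuclideanSpace.norm_sq_eq, Finset.mul_sum]
    refine Finset.sum_congr rfl fun g _ => ?_
    rw [ex_apply, Real.norm_eq_abs, sq_abs]
    ring
  rw [h5, hu, (HP_herm (V := V)).eigenvectorBasis.orthonormal.1 i] at h2
  simpa using h2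

end

theorem t_ID (hEN : Pool.Agent.Y998.LP.S_EN2) : Pool.Agent.Y998.LP.S_ID := by
  intro V _ _ s hs h
  rcases Nat.eq_zero_or_pos (Fintype.card V) with hn | hn
  · rw [hn, Nat.cast_zero, div_zero, law_zero, if_pos rfl, Nat.factorial_zero]
    norm_num
  · have hnR : (0 : ℝ) < Fintype.card V := by exact_mod_cast hn
    rw [trace_law, trace_E (HP V) HP_herm]
    have h1 := final_sum (HP_herm (V := V)).eigenvalues 1
      (Fintype.card V * Fintype.card V + 1) (Fintype.card V / 2) (s / Fintype.card V)
      (by positivity) (eig_nonnegP (Fintype.equivFin V)) (fun j => by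
        have h2 := countP hEN (Fintype.equivFin V) j
        rw [mul_div_assoc] at h2
        rw [one_mul]
        exact h2) (div_nonneg hs hnR.le) (by
        have h3 : s / (Fintype.card V : ℝ) * (Fintype.card V / 2) = s / 2 := by
          field_simp
        rw [h3]
        push_cast
        rw [← sq]
        exact h)
    simpa using h1

end Pool.Agent.Y220.LP
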